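import Mathlib

/-! Triangular systems in a graph and in its complement: the staircase bound. -/

namespace Pool.Agent.P.MP_47eac2_co

open Finset

/-- A triangular system of length `r`: `a i` is adjacent to `b j` for `i < j < r`
and `a i` is not adjacent to `b i`. -/
def Tri {V : Type*} (G : SimpleGraph V) (r : ℕ) : Prop :=
  ∃ a b : ℕ → V, (∀ i, i < r → ¬ G.Adj (a i) (b i)) ∧
    (∀ i j, i < j → j < r → G.Adj (a i) (b j))

section
variable {V : Type*} {G : SimpleGraph V} {r : ℕ} {a b : ℕ → V}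

lemma inj_a (h1 : ∀ i, i < r → ¬ G.Adj (a i) (b i))
    (h2 : ∀ i j, i < j → j < r → G.Adj (a i) (b j)) :
    Set.InjOn a (range r : Set ℕ) := by
  intro i hi j hj hij
  simp only [coe_range, Set.mem_Iio] at hi hj
  rcases lt_trichotomy i j with h | h | h
  · exact absurd (hij ▸ h2 i j h hj) (h1 j hj)
  · exact h
  · exact absurd (hij ▸ h2 j i h hi) (h1 i hi)

lemma inj_b (h1 : ∀ i, i < r → ¬ G.Adj (a i) (b i))
    (h2 : ∀ i j, i < j → j < r → G.Adj (a i) (b j)) :
    Set.InjOn b (range r : Set ℕ) := by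
  intro i hi j hj hij
  simp only [coe_range, Set.mem_Iio] at hi hj
  rcases lt_trichotomy i j with h | h | h
  · exact absurd (hij ▸ h2 i j h hj) (h1 i hi)
  · exact h
  · exact absurd (hij ▸ h2 j i h hi) (h1 j hj)

variable [DecidableEq V]

lemma cross (h2 : ∀ i j, i < j → j < r → G.Adj (a i) (b j)) {t : ℕ} {x y : V}
    (hx : x ∈ (range t).image a) (hy : y ∈ (Ico t r).image b) : G.Adj x y := by
  obtain ⟨i, hi, rfl⟩ := mem_image.1 hx
  obtain ⟨j, hj, rfl⟩ := mem_image.1 hy
  rw [mem_range] at hi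
  rw [mem_Ico] at hj
  exact h2 i j (by omega) hj.2

lemma card_PQ (h1 : ∀ i, i < r → ¬ G.Adj (a i) (b i))
    (h2 : ∀ i j, i < j → j < r → G.Adj (a i) (b j)) {t : ℕ} (ht : t ≤ r) :
    ((range t).image a ∪ (Ico t r).image b).card = r := by
  rw [card_union_of_disjoint]
  · rw [card_image_of_injOn, card_image_of_injOn]
    · simp; omega
    · refine (inj_b h1 h2).mono ?_
      intro i hi
      simp only [coe_Ico, Set.mem_Ico, coe_range, Set.mem_Iio] at hi ⊢
      exact hi.2
    · refine (inj_a h1 h2).mono ?_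
      intro i hi
      simp only [coe_range, Set.mem_Iio] at hi ⊢
      omega
  · rw [disjoint_left]
    intro x hx hy
    exact G.irrefl (cross h2 hx hy)

lemma P_step (a : ℕ → V) (t : ℕ) (X : Finset V) :
    ((range (t + 1)).image a ∩ X).card ≤ ((range t).image a ∩ X).card + 1 := by
  have : (range (t + 1)).image a ∩ X ⊆ insert (a t) ((range t).image a ∩ X) := by
    intro x hx
    rw [range_add_one, image_insert, mem_inter, mem_insert] at hx
    rw [mem_insert, mem_inter]
    tauto
  exact (card_le_card this).trans (card_insert_le _ _)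

lemma Q_step (b : ℕ → V) (t r : ℕ) (X : Finset V) :
    ((Ico t r).image b ∩ X).card ≤ ((Ico (t + 1) r).image b ∩ X).card + 1 := by
  have : (Ico t r).image b ∩ X ⊆ insert (b t) ((Ico (t + 1) r).image b ∩ X) := by
    intro x hx
    rw [mem_inter, mem_image] at hx
    obtain ⟨⟨j, hj, rfl⟩, hX⟩ := hx
    rw [mem_Ico] at hj
    rw [mem_insert, mem_inter, mem_image]
    by_cases h : j = t
    · left; rw [h]
    · right; exact ⟨⟨j, mem_Ico.2 ⟨by omega, hj.2⟩, rfl⟩, hX⟩
  exact (card_le_card this).trans (card_insert_le _ _)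

lemma Q_anti (b : ℕ → V) (t r : ℕ) (X : Finset V) :
    ((Ico (t + 1) r).image b ∩ X).card ≤ ((Ico t r).image b ∩ X).card := by
  apply card_le_card
  apply inter_subset_inter_right
  apply image_subset_image
  exact Ico_subset_Ico_left (by omega)

end

/-- The staircase bound: triangular systems in `G` and in its complement have total length
at most the number of vertices plus two. -/
theorem tri_add_le {V : Type*} [Fintype V] {G : SimpleGraph V} {r s : ℕ}
    (hG : Tri G r) (hH : Tri Gᶜ s) : r + s ≤ Fintype.card V + 2 := by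
  classical
  obtain ⟨a, b, h1, h2⟩ := hG
  obtain ⟨c, d, k1, k2⟩ := hH
  by_contra hlt
  push Not at hlt
  set P : ℕ → Finset V := fun t => (range t).image a with hP
  set Q : ℕ → Finset V := fun t => (Ico t r).image b with hQ
  set P' : ℕ → Finset V := fun t => (range t).image c with hP'
  set Q' : ℕ → Finset V := fun t => (Ico t s).image d with hQ'
  have hsum : ∀ t u, t ≤ r → u ≤ s → 3 ≤ (P t ∩ P' u).card + (P t ∩ Q' u).card +
      (Q t ∩ P' u).card + (Q t ∩ Q' u).card := by
    intro t u ht hu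
    have e1 := card_PQ h1 h2 ht
    have e2 := card_PQ k1 k2 hu
    have e3 := card_union_add_card_inter (P t ∪ Q t) (P' u ∪ Q' u)
    have e4 : ((P t ∪ Q t) ∪ (P' u ∪ Q' u)).card ≤ Fintype.card V := card_le_univ _
    have e5 : (P t ∪ Q t) ∩ (P' u ∪ Q' u) =
        ((P t ∩ P' u) ∪ (P t ∩ Q' u) ∪ (Q t ∩ P' u)) ∪ (Q t ∩ Q' u) := by
      ext x; simp only [mem_inter, mem_union]; tauto
    have e6 := card_union_le ((P t ∩ P' u) ∪ (P t ∩ Q' u) ∪ (Q t ∩ P' u)) (Q t ∩ Q' u)
    have e7 := card_union_le ((P t ∩ P' u) ∪ (P t ∩ Q' u)) (Q t ∩ P' u)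
    have e8 := card_union_le (P t ∩ P' u) (P t ∩ Q' u)
    change (P t ∪ Q t).card = r at e1
    change (P' u ∪ Q' u).card = s at e2
    rw [e5] at e3
    omega
  have hc1 : ∀ t u, (P t ∩ P' u).card = 0 ∨ (Q t ∩ Q' u).card = 0 := by
    intro t u
    by_contra hcon
    push Not at hcon
    obtain ⟨x, hx⟩ := card_pos.1 (Nat.pos_of_ne_zero hcon.1)
    obtain ⟨y, hy⟩ := card_pos.1 (Nat.pos_of_ne_zero hcon.2)
    rw [mem_inter] at hx hy
    have g1 := cross h2 hx.1 hy.1
    have g2 := cross k2 hx.2 hy.2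
    exact ((G.compl_adj _ _).1 g2).2 g1
  have hc2 : ∀ t u, (P t ∩ Q' u).card = 0 ∨ (Q t ∩ P' u).card = 0 := by
    intro t u
    by_contra hcon
    push Not at hcon
    obtain ⟨x, hx⟩ := card_pos.1 (Nat.pos_of_ne_zero hcon.1)
    obtain ⟨y, hy⟩ := card_pos.1 (Nat.pos_of_ne_zero hcon.2)
    rw [mem_inter] at hx hy
    have g1 := cross h2 hx.1 hy.1
    have g2 := cross k2 hy.2 hx.2
    exact ((G.compl_adj _ _).1 g2).2 g1.symm
  have hin : ∀ t u, 2 ≤ (Q t ∩ Q' u).card → t < r ∧ u < s := by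
    intro t u h
    obtain ⟨y, hy⟩ := card_pos.1 (lt_of_lt_of_le (by norm_num) h)
    rw [mem_inter] at hy
    obtain ⟨i, hi, -⟩ := mem_image.1 hy.1
    obtain ⟨j, hj, -⟩ := mem_image.1 hy.2
    rw [mem_Ico] at hi hj
    omega
  have walk : ∀ k : ℕ, ∃ t u, t + u = k ∧ 2 ≤ (Q t ∩ Q' u).card ∧
      (P t ∩ Q' u).card ≤ 1 ∧ (Q t ∩ P' u).card ≤ 1 := by
    intro k
    induction k with
    | zero =>
      refine ⟨0, 0, rfl, ?_, ?_, ?_⟩
      · have := hsum 0 0 (Nat.zero_le _) (Nat.zero_le _)
        simp only [hP, hP', range_zero, image_empty, empty_inter, inter_empty, card_empty] at this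
        omega
      · simp [hP]
      · simp [hP']
    | succ k ih =>
      obtain ⟨t, u, htu, g1, g2, g3⟩ := ih
      obtain ⟨ht, hu⟩ := hin t u g1
      by_cases h0 : (P t ∩ Q' u).card = 0
      · have s1 : (P (t + 1) ∩ Q' u).card ≤ (P t ∩ Q' u).card + 1 := P_step a t _
        have s2 : (Q (t + 1) ∩ P' u).card ≤ (Q t ∩ P' u).card := Q_anti b t r _
        have s3 : (Q t ∩ Q' u).card ≤ (Q (t + 1) ∩ Q' u).card + 1 := Q_step b t r _
        have s4 := hsum (t + 1) u ht hu.le
        have s5 := hc1 (t + 1) u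
        have s6 := hc2 (t + 1) u
        exact ⟨t + 1, u, by omega, by omega, by omega, by omega⟩
      · have s0 := hc2 t u
        have s1 : (P' (u + 1) ∩ Q t).card ≤ (P' u ∩ Q t).card + 1 := P_step c u _
        have s2 : (Q' (u + 1) ∩ P t).card ≤ (Q' u ∩ P t).card := Q_anti d u s _
        have s3 : (Q' u ∩ Q t).card ≤ (Q' (u + 1) ∩ Q t).card + 1 := Q_step d u s _
        rw [inter_comm (P' _), inter_comm (P' _)] at s1
        rw [inter_comm (Q' _), inter_comm (Q' _)] at s2 s3
        have s4 := hsum t (u + 1) ht.le hu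
        have s5 := hc1 t (u + 1)
        have s6 := hc2 t (u + 1)
        exact ⟨t, u + 1, by omega, by omega, by omega, by omega⟩
  obtain ⟨t, u, htu, g1, -, -⟩ := walk (r + s)
  have := hin t u g1
  omega

theorem tri_le {V : Type*} [Fintype V] {G : SimpleGraph V} {r : ℕ} (hG : Tri G r) :
    r ≤ Fintype.card V := by
  classical
  obtain ⟨a, b, h1, h2⟩ := hG
  have := card_PQ h1 h2 (le_refl r)
  rw [← this]
  exact card_le_univ _

/-- A triangular system through all vertices forces the graph to be complete. -/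
theorem tri_full {V : Type*} [Fintype V] {G : SimpleGraph V}
    (hG : Tri G (Fintype.card V)) {x y : V} (hxy : x ≠ y) : G.Adj x y := by
  classical
  obtain ⟨a, b, h1, h2⟩ := hG
  set r := Fintype.card V with hr
  have hu : ∀ t, t ≤ r → ∀ z, z ∈ (range t).image a ∪ (Ico t r).image b := by
    intro t ht z
    have := card_PQ h1 h2 ht
    rw [(card_eq_iff_eq_univ _).1 this]
    exact mem_univ z
  have ha : ∀ z, ∃ i, i < r ∧ a i = z := by
    intro z
    have := hu r le_rfl z
    simpa using this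
  have key : ∀ i j, i < j → j < r → G.Adj (a i) (a j) := by
    intro i j hij hj
    have := hu j hj.le (a j)
    rw [mem_union] at this
    rcases this with h | h
    · obtain ⟨l, hl, e⟩ := mem_image.1 h
      rw [mem_range] at hl
      have := inj_a h1 h2 (by simp; omega : l ∈ (range r : Set ℕ)) (by simpa using hj) e
      omega
    · exact cross h2 (mem_image.2 ⟨i, mem_range.2 hij, rfl⟩) h
  obtain ⟨i, hi, rfl⟩ := ha x
  obtain ⟨j, hj, rfl⟩ := ha y
  rcases lt_trichotomy i j with h | h | h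
  · exact key i j h hj
  · exact absurd (congrArg a h) hxy
  · exact (key j i h hi).symm

theorem tri_mono {V : Type*} {G : SimpleGraph V} {r s : ℕ} (hG : Tri G r) (h : s ≤ r) :
    Tri G s := by
  obtain ⟨a, b, h1, h2⟩ := hG
  exact ⟨a, b, fun i hi => h1 i (by omega), fun i j hij hj => h2 i j hij (by omega)⟩

theorem tri_two {V : Type*} {G : SimpleGraph V} (hG : Tri G 2) : ∃ x y, G.Adj x y := by
  obtain ⟨a, b, -, h2⟩ := hG
  exact ⟨_, _, h2 0 1 (by norm_num) (by norm_num)⟩

theorem tri_three {V : Type*} [Finite V] {G : SimpleGraph V} (hG : Tri G 3) :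
    3 ≤ G.edgeSet.ncard := by
  classical
  obtain ⟨a, b, h1, h2⟩ := hG
  have e01 := h2 0 1 (by norm_num) (by norm_num)
  have e02 := h2 0 2 (by norm_num) (by norm_num)
  have e12 := h2 1 2 (by norm_num) (by norm_num)
  have n1 := h1 1 (by norm_num)
  have hb : b 1 ≠ b 2 := fun h => n1 (h ▸ e12)
  have ha : a 0 ≠ a 1 := fun h => n1 (h ▸ e01)
  have hsub : ({s(a 0, b 1), s(a 0, b 2), s(a 1, b 2)} : Set (Sym2 V)) ⊆ G.edgeSet := by
    intro e he
    simp only [Set.mem_insert_iff, Set.mem_singleton_iff] at he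
    rcases he with rfl | rfl | rfl <;> assumption
  refine le_trans (le_of_eq ?_) (Set.ncard_le_ncard hsub (Set.toFinite _))
  symm
  rw [Set.ncard_eq_three]
  refine ⟨_, _, _, ?_, ?_, ?_, rfl⟩
  · simp only [ne_eq, Sym2.eq_iff, true_and, not_or, not_and]
    exact ⟨hb, fun h => absurd h e02.ne⟩
  · simp only [ne_eq, Sym2.eq_iff, not_or, not_and]
    exact ⟨fun h => absurd h ha, fun h => absurd h e02.ne⟩
  · simp only [ne_eq, Sym2.eq_iff, and_true, not_or, not_and]
    exact ⟨ha, fun h => absurd h e02.ne⟩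

end Pool.Agent.P.MP_47eac2_co
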